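import Pool.Agent.P8H42.EP.Stm

/-! # Project EP: partial summation -/

set_option autoImplicit false

namespace Pool.Agent.P8H24.EP

open MeasureTheory Filter Topology Set
open Pool.Agent.P8H42.EP

namespace Idn

/-- the integral of a truncated exponential -/
lemma int_tail (a : ℂ) {L v : ℝ} (hL : 0 ≤ L) (hLv : L ≤ v) :
    IntervalIntegrable (fun w : ℝ => (Ici L).indicator (fun w : ℝ => Complex.exp (-(a * w))) w)
      volume 0 v ∧
    a * ∫ w in (0:ℝ)..v, (Ici L).indicator (fun w : ℝ => Complex.exp (-(a * w))) w =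
      Complex.exp (-(a * L)) - Complex.exp (-(a * v)) := by
  have hv : 0 ≤ v := hL.trans hLv
  have hcont : Continuous (fun w : ℝ => Complex.exp (-(a * w))) := by fun_prop
  constructor
  · rw [intervalIntegrable_iff_integrableOn_Ioc_of_le hv]
    exact (hcont.integrableOn_Ioc).indicator measurableSet_Ici
  · rw [intervalIntegral.integral_of_le hv, setIntegral_indicator measurableSet_Ici]
    have h1 : (Ioc 0 v ∩ Ici L : Set ℝ) =ᵐ[volume] (Ioc L v : Set ℝ) := by
      have h2 : (Ioc L v : Set ℝ) = Ioc 0 v ∩ Ioi L := by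
        ext x
        simp only [mem_Ioc, mem_inter_iff, mem_Ioi]
        constructor
        · rintro ⟨h3, h4⟩
          exact ⟨⟨by linarith, h4⟩, h3⟩
        · rintro ⟨⟨_, h4⟩, h5⟩
          exact ⟨h5, h4⟩
      rw [h2]
      exact (ae_eq_refl _).inter Ioi_ae_eq_Ici.symm
    rw [setIntegral_congr_set h1, ← intervalIntegral.integral_of_le hLv,
      ← intervalIntegral.integral_const_mul]
    have hd : ∀ x ∈ uIcc L v, HasDerivAt (fun w : ℝ => -Complex.exp (-(a * w)))
        (a * Complex.exp (-(a * x))) x := by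
      intro x _
      have h2 : HasDerivAt (fun w : ℝ => -(a * (w : ℂ))) (-(a * 1)) x :=
        (((hasDerivAt_id x).ofReal_comp).const_mul a).neg
      have h3 := h2.cexp.neg
      refine h3.congr_deriv ?_
      ring
    rw [intervalIntegral.integral_eq_sub_of_hasDerivAt hd (by
      apply Continuous.intervalIntegrable
      fun_prop)]
    ring

/-- partial summation -/
theorem abel (c : ℕ → ℂ) (a : ℂ) {v : ℝ} (hv : 0 ≤ v) :
    ∑ n ∈ Finset.Icc 1 ⌊Real.exp v⌋₊, c n * (n : ℂ) ^ (-a) =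
      (∑ n ∈ Finset.Icc 1 ⌊Real.exp v⌋₊, c n) * Complex.exp (-(a * v)) +
      a * ∫ w in (0:ℝ)..v, (∑ n ∈ Finset.Icc 1 ⌊Real.exp w⌋₊, c n) * Complex.exp (-(a * w)) := by
  obtain ⟨S, hS⟩ : ∃ S, S = Finset.Icc 1 ⌊Real.exp v⌋₊ := ⟨_, rfl⟩
  rw [← hS]
  have hmem : ∀ n ∈ S, 1 ≤ n ∧ 0 ≤ Real.log n ∧ Real.log n ≤ v := by
    intro n hn
    rw [hS, Finset.mem_Icc] at hn
    have h1 : (1 : ℝ) ≤ n := by exact_mod_cast hn.1
    have h2 : (n : ℝ) ≤ Real.exp v := (Nat.le_floor_iff (Real.exp_pos v).le).1 hn.2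
    refine ⟨hn.1, Real.log_nonneg h1, ?_⟩
    rw [Real.log_le_iff_le_exp (by linarith)]
    exact h2
  have hint : ∫ w in (0:ℝ)..v, (∑ n ∈ Finset.Icc 1 ⌊Real.exp w⌋₊, c n) * Complex.exp (-(a * w)) =
      ∫ w in (0:ℝ)..v, ∑ n ∈ S, c n *
        (Ici (Real.log n)).indicator (fun w : ℝ => Complex.exp (-(a * w))) w := by
    apply intervalIntegral.integral_congr
    intro w hw
    rw [uIcc_of_le hv] at hw
    simp only
    have h1 : Finset.Icc 1 ⌊Real.exp w⌋₊ = S.filter (fun n : ℕ => Real.log n ≤ w) := by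
      ext n
      rw [hS, Finset.mem_filter, Finset.mem_Icc, Finset.mem_Icc]
      constructor
      · rintro ⟨h2, h3⟩
        have h4 : (n : ℝ) ≤ Real.exp w := (Nat.le_floor_iff (Real.exp_pos w).le).1 h3
        have h5 : (1 : ℝ) ≤ n := by exact_mod_cast h2
        refine ⟨⟨h2, (Nat.le_floor_iff (Real.exp_pos v).le).2
          (h4.trans (Real.exp_le_exp.2 hw.2))⟩, ?_⟩
        rw [Real.log_le_iff_le_exp (by linarith)]
        exact h4
      · rintro ⟨⟨h2, _⟩, h3⟩
        have h5 : (1 : ℝ) ≤ n := by exact_mod_cast h2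
        rw [Real.log_le_iff_le_exp (by linarith)] at h3
        exact ⟨h2, (Nat.le_floor_iff (Real.exp_pos w).le).2 h3⟩
    rw [h1, Finset.sum_filter, Finset.sum_mul]
    apply Finset.sum_congr rfl
    intro n _
    by_cases h2 : Real.log n ≤ w
    · rw [if_pos h2, indicator_of_mem (show w ∈ Ici (Real.log n) from h2)]
    · rw [if_neg h2, indicator_of_notMem (show w ∉ Ici (Real.log n) from h2), zero_mul, mul_zero]
  rw [hint, intervalIntegral.integral_finsetSum]
  · rw [Finset.mul_sum, Finset.sum_mul, ← Finset.sum_add_distrib]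
    apply Finset.sum_congr rfl
    intro n hn
    obtain ⟨h1, h2, h3⟩ := hmem n hn
    rw [intervalIntegral.integral_const_mul]
    have h4 := (int_tail a h2 h3).2
    have h5 : (n : ℂ) ^ (-a) = Complex.exp (-(a * (Real.log n : ℝ))) := by
      have hn0 : (n : ℂ) ≠ 0 := by
        have : n ≠ 0 := by omega
        exact_mod_cast this
      rw [Complex.cpow_def_of_ne_zero hn0]
      congr 1
      rw [← Complex.natCast_log]
      ring
    rw [h5]
    linear_combination (-(c n)) * h4
  · intro n hn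
    obtain ⟨h1, h2, h3⟩ := hmem n hn
    exact (int_tail a h2 h3).1.const_mul _

lemma Mf_eq (u : ℝ) : ((Mf u : ℝ) : ℂ) = ∑ n ∈ Finset.Icc 1 ⌊u⌋₊,
    ((ArithmeticFunction.moebius n : ℤ) : ℂ) := by
  unfold Mf
  push_cast
  rfl

/-- the first identity, without the weights -/
theorem core1 (s : ℂ) {v : ℝ} (hv : 0 ≤ v) : As s (Real.exp v) =
    (Mf (Real.exp v) : ℂ) * Complex.exp (-(s * v)) +
      s * ∫ w in (0:ℝ)..v, (Mf (Real.exp w) : ℂ) * Complex.exp (-(s * w)) := by
  have h := abel (fun n => ((ArithmeticFunction.moebius n : ℤ) : ℂ)) s hv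
  unfold As
  rw [h, Mf_eq]
  simp only [Mf_eq]

/-- the second identity, without the weights -/
theorem core2 (s : ℂ) {v : ℝ} (hv : 0 ≤ v) : (Mf (Real.exp v) : ℂ) =
    As s (Real.exp v) * Complex.exp (s * v) -
      s * ∫ w in (0:ℝ)..v, As s (Real.exp w) * Complex.exp (s * w) := by
  have h := abel (fun n => ((ArithmeticFunction.moebius n : ℤ) : ℂ) * (n : ℂ) ^ (-s)) (-s) hv
  have h1 : ∑ n ∈ Finset.Icc 1 ⌊Real.exp v⌋₊, ((ArithmeticFunction.moebius n : ℤ) : ℂ) *
      (n : ℂ) ^ (-s) * (n : ℂ) ^ (- -s) = (Mf (Real.exp v) : ℂ) := by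
    rw [Mf_eq]
    apply Finset.sum_congr rfl
    intro n hn
    have hn0 : (n : ℂ) ≠ 0 := by
      have : n ≠ 0 := by
        have := (Finset.mem_Icc.1 hn).1
        omega
      exact_mod_cast this
    rw [mul_assoc, ← Complex.cpow_add _ _ hn0, add_neg_cancel, Complex.cpow_zero, mul_one]
  rw [h1] at h
  rw [h]
  have e : ∀ w : ℝ, -(-s * (w : ℂ)) = s * w := fun w => by ring
  simp only [e]
  unfold As
  ring

end Idn

open Idn

/-- IDN (1) -/
theorem id1 : S_ID1 := by
  intro s v hv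
  rw [core1 s hv, mul_add]
  have e1 : Complex.exp ((s - 1 / 2) * v) * ((Mf (Real.exp v) : ℂ) * Complex.exp (-(s * v))) =
      ff v := by
    unfold ff
    push_cast
    rw [mul_left_comm, ← Complex.exp_add]
    congr 2
    ring
  rw [e1]
  congr 1
  rw [mul_left_comm, ← intervalIntegral.integral_const_mul]
  congr 1
  apply intervalIntegral.integral_congr
  intro w _
  simp only
  unfold ff
  push_cast
  rw [mul_left_comm, ← Complex.exp_add, mul_left_comm, ← Complex.exp_add]
  congr 2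
  ring

/-- IDN (2) -/
theorem id2 : S_ID2 := by
  intro s v hv
  have h := core2 s hv
  have e0 : ff v = (Mf (Real.exp v) : ℂ) * Complex.exp (-(v / 2)) := by
    unfold ff
    push_cast
    rfl
  rw [e0, h, sub_mul]
  congr 1
  · rw [mul_assoc, ← Complex.exp_add, mul_comm]
    congr 2
    ring
  · rw [mul_assoc, mul_comm (∫ w in (0:ℝ)..v, _), ← intervalIntegral.integral_const_mul]
    congr 1
    apply intervalIntegral.integral_congr
    intro w _
    simp only
    rw [mul_left_comm, ← Complex.exp_add, mul_comm (Complex.exp ((s - 1 / 2) * w)),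
      mul_left_comm (Complex.exp (-((v - w) / 2))), ← Complex.exp_add]
    congr 2
    ring

end Pool.Agent.P8H24.EP
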