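import Pool.Agent.P8H24.EP.Idn

/-! # Project EP: the Laplace transform -/

set_option autoImplicit false

namespace Pool.Agent.P8H24.EP

open MeasureTheory Filter Topology Set Metric
open Pool.Agent.P8H42.EP

namespace Lap

lemma A_nonneg {F : ℝ → ℂ} {A : ℝ} (h : Gr F A) : 0 ≤ A := by
  have := h.grow 0 le_rfl
  simpa using this

lemma sq_meas {F : ℝ → ℂ} {A : ℝ} (h : Gr F A) : Measurable (fun v => ‖F v‖ ^ 2) :=
  (h.meas.norm).pow_const 2

lemma sq_int {F : ℝ → ℂ} {A : ℝ} (h : Gr F A) (a b : ℝ) :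
    IntegrableOn (fun v => ‖F v‖ ^ 2) (Ioc a b) := by
  obtain ⟨B, hB, hb⟩ := h.bdd b
  refine Measure.integrableOn_of_bounded (M := B ^ 2) (by simp) (sq_meas h).aestronglyMeasurable ?_
  refine (ae_restrict_iff' measurableSet_Ioc).2 (Eventually.of_forall fun v hv => ?_)
  rw [Real.norm_of_nonneg (by positivity)]
  exact pow_le_pow_left₀ (norm_nonneg _) (hb v hv.2) 2

/-- the square times the exponential -/
lemma int_sq {F : ℝ → ℂ} {A : ℝ} (h : Gr F A) {σ : ℝ} (hσ : 0 < σ) :
    IntegrableOn (fun v => ‖F v‖ ^ 2 * Real.exp (-(σ * v))) (Ioi 0) := by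
  have hA := A_nonneg h
  have hm : Measurable (fun v => ‖F v‖ ^ 2 * Real.exp (-(σ * v))) :=
    (sq_meas h).mul (by fun_prop)
  have hblock : ∀ k : ℕ, ∀ v ∈ Ioc (k : ℝ) (k + 1 : ℝ),
      ‖F v‖ ^ 2 * Real.exp (-(σ * v)) ≤ Real.exp (-(σ * k)) * ‖F v‖ ^ 2 := by
    intro k v hv
    rw [mul_comm]
    apply mul_le_mul_of_nonneg_right _ (by positivity)
    apply Real.exp_le_exp.2
    have := mul_le_mul_of_nonneg_left hv.1.le hσ.le
    linarith
  have hint : ∀ a b : ℝ, 0 ≤ a → IntegrableOn (fun v => ‖F v‖ ^ 2 * Real.exp (-(σ * v))) (Ioc a b) := by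
    intro a b ha
    refine Integrable.mono' (sq_int h a b) hm.aestronglyMeasurable ?_
    refine (ae_restrict_iff' measurableSet_Ioc).2 (Eventually.of_forall fun v hv => ?_)
    rw [Real.norm_of_nonneg (by positivity)]
    refine mul_le_of_le_one_right (by positivity) ?_
    rw [Real.exp_le_one_iff]
    have : 0 < v := ha.trans_lt hv.1
    have := mul_pos hσ this
    linarith
  have hII : ∀ a b : ℝ, 0 ≤ a → a ≤ b →
      IntervalIntegrable (fun v => ‖F v‖ ^ 2 * Real.exp (-(σ * v))) volume a b := by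
    intro a b ha hab
    rw [intervalIntegrable_iff_integrableOn_Ioc_of_le hab]
    exact hint a b ha
  have hstep : ∀ k : ℕ, ∫ v in (k : ℝ)..(k + 1 : ℕ), ‖F v‖ ^ 2 * Real.exp (-(σ * v)) ≤
      Real.exp (-(σ * k)) * (A * (k + 2)) := by
    intro k
    push_cast
    have hk : (0 : ℝ) ≤ k := Nat.cast_nonneg k
    have h1 : ∫ v in (k : ℝ)..(k + 1), ‖F v‖ ^ 2 * Real.exp (-(σ * v)) ≤
        ∫ v in (k : ℝ)..(k + 1), Real.exp (-(σ * k)) * ‖F v‖ ^ 2 := by
      rw [intervalIntegral.integral_of_le (by linarith), intervalIntegral.integral_of_le (by linarith)]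
      exact setIntegral_mono_on (hint _ _ hk) ((sq_int h _ _).const_mul _) measurableSet_Ioc
        (hblock k)
    refine h1.trans ?_
    rw [intervalIntegral.integral_const_mul]
    apply mul_le_mul_of_nonneg_left _ (Real.exp_pos _).le
    have h2 : ∫ v in (k : ℝ)..(k + 1), ‖F v‖ ^ 2 ≤ ∫ v in (0 : ℝ)..(k + 1), ‖F v‖ ^ 2 := by
      rw [intervalIntegral.integral_of_le (by linarith), intervalIntegral.integral_of_le (by linarith)]
      apply setIntegral_mono_set (sq_int h _ _)
      · exact Eventually.of_forall fun v => by positivity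
      · exact (Ioc_subset_Ioc_left hk).eventuallyLE
    have h3 := h.grow (k + 1) (by linarith)
    refine h2.trans (h3.trans (le_of_eq ?_))
    ring
  have hsum : Summable (fun k : ℕ => Real.exp (-(σ * k)) * (A * (k + 2))) := by
    have hr : ‖Real.exp (-σ)‖ < 1 := by
      rw [Real.norm_of_nonneg (Real.exp_pos _).le, Real.exp_lt_one_iff]
      linarith
    have s1 := summable_pow_mul_geometric_of_norm_lt_one 1 hr
    have s0 := summable_geometric_of_norm_lt_one hr
    have e : (fun k : ℕ => Real.exp (-(σ * k)) * (A * (k + 2))) =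
        fun k : ℕ => A * ((k : ℝ) ^ 1 * Real.exp (-σ) ^ k) + 2 * A * Real.exp (-σ) ^ k := by
      funext k
      rw [← Real.exp_nat_mul, pow_one]
      have : (k : ℝ) * -σ = -(σ * k) := by ring
      rw [this]
      ring
    rw [e]
    exact (s1.mul_left A).add (s0.mul_left (2 * A))
  refine integrableOn_Ioi_of_intervalIntegral_norm_bounded
    (∑' k : ℕ, Real.exp (-(σ * k)) * (A * (k + 2))) 0 (fun n : ℕ => hint 0 n le_rfl)
    tendsto_natCast_atTop_atTop (Eventually.of_forall fun n => ?_)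
  have h1 : ∫ v in (0 : ℝ)..(n : ℝ), ‖‖F v‖ ^ 2 * Real.exp (-(σ * v))‖ =
      ∑ k ∈ Finset.range n, ∫ v in (k : ℝ)..(k + 1 : ℕ), ‖F v‖ ^ 2 * Real.exp (-(σ * v)) := by
    have e : ∀ v : ℝ, ‖‖F v‖ ^ 2 * Real.exp (-(σ * v))‖ = ‖F v‖ ^ 2 * Real.exp (-(σ * v)) := fun v =>
      Real.norm_of_nonneg (by positivity)
    simp only [e]
    have := intervalIntegral.sum_integral_adjacent_intervals (n := n) (a := fun k : ℕ => (k : ℝ))
      (f := fun v => ‖F v‖ ^ 2 * Real.exp (-(σ * v))) (μ := volume) (fun k _ =>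
        hII k (k + 1 : ℕ) (Nat.cast_nonneg k) (by push_cast; linarith))
    rw [this]
    simp
  rw [h1]
  refine (Finset.sum_le_sum fun k _ => hstep k).trans ?_
  exact hsum.sum_le_tsum _ (fun k _ => by positivity)

lemma int_exp {F : ℝ → ℂ} {A : ℝ} (h : Gr F A) {σ : ℝ} (hσ : 0 < σ) :
    IntegrableOn (fun v => ‖F v‖ * Real.exp (-(σ * v))) (Ioi 0) := by
  have h1 := int_sq h hσ
  have h2 : IntegrableOn (fun v : ℝ => Real.exp (-(σ * v))) (Ioi 0) := by
    have := integrableOn_exp_mul_Ioi (a := -σ) (by linarith) 0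
    refine this.congr_fun (fun v _ => ?_) measurableSet_Ioi
    simp only
    congr 1
    ring
  refine Integrable.mono' (h1.add h2) ?_ ?_
  · exact ((h.meas.norm).mul (by fun_prop)).aestronglyMeasurable
  · refine Eventually.of_forall fun v => ?_
    rw [Real.norm_of_nonneg (by positivity)]
    simp only [Pi.add_apply]
    have h3 : ‖F v‖ ≤ ‖F v‖ ^ 2 + 1 := by nlinarith [sq_nonneg (‖F v‖ - 1), norm_nonneg (F v)]
    calc ‖F v‖ * Real.exp (-(σ * v)) ≤ (‖F v‖ ^ 2 + 1) * Real.exp (-(σ * v)) :=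
          mul_le_mul_of_nonneg_right h3 (Real.exp_pos _).le
      _ = _ := by ring

lemma norm_F {F : ℝ → ℂ} (z : ℂ) (v : ℝ) :
    ‖F v * Complex.exp (-(z * v))‖ = ‖F v‖ * Real.exp (-(z.re * v)) := by
  rw [norm_mul, Complex.norm_exp]
  congr 2
  simp

lemma int_F {F : ℝ → ℂ} {A : ℝ} (h : Gr F A) {z : ℂ} (hz : 0 < z.re) :
    IntegrableOn (fun v : ℝ => F v * Complex.exp (-(z * v))) (Ioi 0) := by
  refine Integrable.mono' (int_exp h hz) ?_ (Eventually.of_forall fun v => (norm_F z v).le)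
  exact (h.meas.mul (by fun_prop)).aestronglyMeasurable

/-- the Laplace transform -/
noncomputable def Lt (F : ℝ → ℂ) (z : ℂ) : ℂ := ∫ v in Ioi (0:ℝ), F v * Complex.exp (-(z * v))

lemma Lt_diff {F : ℝ → ℂ} {A : ℝ} (h : Gr F A) {z : ℂ} (hz : 0 < z.re) :
    DifferentiableAt ℂ (Lt F) z := by
  obtain ⟨σ, hσ⟩ : ∃ σ, σ = z.re := ⟨_, rfl⟩
  rw [← hσ] at hz
  have h1 := hasDerivAt_integral_of_dominated_loc_of_deriv_le (μ := volume.restrict (Ioi (0:ℝ)))
    (F := fun (w : ℂ) (v : ℝ) => F v * Complex.exp (-(w * v)))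
    (F' := fun (w : ℂ) (v : ℝ) => F v * (Complex.exp (-(w * v)) * -(1 * (v : ℂ)))) (x₀ := z)
    (s := ball z (σ / 2))
    (bound := fun v : ℝ => 4 / σ * (‖F v‖ * Real.exp (-(σ / 4 * v))))
    (ball_mem_nhds z (by positivity)) ?_ ?_ ?_ ?_ ?_ ?_
  · exact h1.2.differentiableAt
  · exact Eventually.of_forall fun w => (h.meas.mul (by fun_prop)).aestronglyMeasurable
  · exact int_F h (by rw [← hσ]; exact hz)
  · exact (h.meas.mul (by fun_prop)).aestronglyMeasurable
  · refine (ae_restrict_iff' measurableSet_Ioi).2 (Eventually.of_forall fun v hv w hw => ?_)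
    have hv0 : (0 : ℝ) < v := hv
    rw [mem_ball, dist_eq_norm] at hw
    have hre : σ / 2 ≤ w.re := by
      have := Complex.abs_re_le_norm (w - z)
      rw [Complex.sub_re, ← hσ] at this
      have := (abs_le.1 (this.trans hw.le)).1
      linarith
    have e1 : ‖F v * (Complex.exp (-(w * v)) * -(1 * (v : ℂ)))‖ =
        ‖F v‖ * (Real.exp (-(w.re * v)) * v) := by
      rw [norm_mul, norm_mul, Complex.norm_exp, norm_neg, one_mul, Complex.norm_real,
        Real.norm_of_nonneg hv0.le]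
      congr 3
      simp
    rw [e1]
    have h2 : Real.exp (-(w.re * v)) ≤ Real.exp (-(σ / 2 * v)) := by
      apply Real.exp_le_exp.2
      have := mul_le_mul_of_nonneg_right hre hv0.le
      linarith
    have h3 : Real.exp (-(σ / 4 * v)) * v ≤ 4 / σ := by
      have h4 := Real.add_one_le_exp (σ / 4 * v)
      have h5 : Real.exp (-(σ / 4 * v)) * Real.exp (σ / 4 * v) = 1 := by
        rw [← Real.exp_add, neg_add_cancel, Real.exp_zero]
      have h6 : Real.exp (-(σ / 4 * v)) * (σ / 4 * v) ≤ 1 := by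
        rw [← h5]
        exact mul_le_mul_of_nonneg_left (by linarith) (Real.exp_pos _).le
      rw [le_div_iff₀ hz]
      calc Real.exp (-(σ / 4 * v)) * v * σ = 4 * (Real.exp (-(σ / 4 * v)) * (σ / 4 * v)) := by ring
        _ ≤ 4 := by linarith
    have h7 : Real.exp (-(σ / 2 * v)) * v ≤ 4 / σ * Real.exp (-(σ / 4 * v)) := by
      have e2 : Real.exp (-(σ / 2 * v)) = Real.exp (-(σ / 4 * v)) * Real.exp (-(σ / 4 * v)) := by
        rw [← Real.exp_add]
        congr 1
        ring
      rw [e2, mul_assoc, mul_comm (4 / σ)]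
      exact mul_le_mul_of_nonneg_left h3 (Real.exp_pos _).le
    have h8 : Real.exp (-(w.re * v)) * v ≤ 4 / σ * Real.exp (-(σ / 4 * v)) :=
      (mul_le_mul_of_nonneg_right h2 hv0.le).trans h7
    calc ‖F v‖ * (Real.exp (-(w.re * v)) * v) ≤ ‖F v‖ * (4 / σ * Real.exp (-(σ / 4 * v))) :=
          mul_le_mul_of_nonneg_left h8 (norm_nonneg _)
      _ = 4 / σ * (‖F v‖ * Real.exp (-(σ / 4 * v))) := by ring
  · exact (int_exp h (by positivity : 0 < σ / 4)).const_mul _
  · refine Eventually.of_forall fun v w _ => ?_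
    have h2 : HasDerivAt (fun w : ℂ => -(w * (v : ℂ))) (-(1 * (v : ℂ))) w :=
      ((hasDerivAt_id w).mul_const (v : ℂ)).neg
    exact h2.cexp.const_mul (F v)

/-- `(s - 1) ζ(s)` -/
noncomputable def Zs : ℂ → ℂ := Function.update (fun s => (s - 1) * riemannZeta s) 1 1

lemma Zs_one : Zs 1 = 1 := Function.update_self _ _ _

lemma Zs_ne {s : ℂ} (hs : s ≠ 1) : Zs s = (s - 1) * riemannZeta s := Function.update_of_ne hs _ _

lemma Zs_diff : Differentiable ℂ Zs := by
  have h1 : ∀ s : ℂ, s ≠ 1 → DifferentiableAt ℂ Zs s := by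
    intro s hs
    have h2 : Zs =ᶠ[𝓝 s] fun s => (s - 1) * riemannZeta s := by
      filter_upwards [isOpen_ne.mem_nhds hs] with w hw
      exact Zs_ne hw
    have h3 : DifferentiableAt ℂ (fun s => (s - 1) * riemannZeta s) s :=
      (differentiableAt_id.sub_const 1).mul (differentiableAt_riemannZeta hs)
    exact h3.congr_of_eventuallyEq h2
  intro s
  rcases eq_or_ne s 1 with rfl | hs
  · apply AnalyticAt.differentiableAt
    apply Complex.analyticAt_of_differentiable_on_punctured_nhds_of_continuousAt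
    · exact eventually_nhdsWithin_of_forall fun w hw => h1 w hw
    · unfold Zs
      rw [continuousAt_update_same]
      exact riemannZeta_residue_one
  · exact h1 s hs

/-- the limit of the partial sums -/
lemma As_lim {s : ℂ} (hs : 1 < s.re) :
    Tendsto (fun v : ℝ => As s (Real.exp v)) atTop (𝓝 (1 / riemannZeta s)) := by
  have hz : LSeries (fun n => ((ArithmeticFunction.moebius n : ℤ) : ℂ)) s = 1 / riemannZeta s := by
    have h1 := LSeries_one_mul_Lseries_moebius hs
    rw [LSeries_one_eq_riemannZeta hs] at h1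
    have h2 := riemannZeta_ne_zero_of_one_lt_re hs
    field_simp
    rw [mul_comm]
    exact h1
  have hS := (ArithmeticFunction.LSeriesSummable_moebius_iff.mpr hs).LSeriesHasSum
  rw [hz] at hS
  have h3 := hS.tendsto_sum_nat
  have h4 : Tendsto (fun v : ℝ => ⌊Real.exp v⌋₊ + 1) atTop atTop :=
    (tendsto_add_atTop_nat 1).comp (tendsto_nat_floor_atTop.comp Real.tendsto_exp_atTop)
  refine (h3.comp h4).congr (fun v => ?_)
  simp only [Function.comp_def]
  unfold As
  rw [Finset.range_eq_Ico, Finset.sum_eq_sum_Ico_succ_bot (by omega)]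
  rw [LSeries.term_zero, zero_add]
  apply Finset.sum_congr
  · ext n
    simp only [Finset.mem_Ico, Finset.mem_Icc]
    omega
  · intro n hn
    have hn0 : n ≠ 0 := by
      have := (Finset.mem_Ico.1 hn).1
      omega
    rw [LSeries.term_of_ne_zero hn0, Complex.cpow_neg, div_eq_mul_inv]

lemma Mf_abs (v : ℝ) : |Mf (Real.exp v)| ≤ Real.exp v := by
  unfold Mf
  refine (Finset.abs_sum_le_sum_abs _ _).trans ?_
  have h1 : ∀ n ∈ Finset.Icc 1 ⌊Real.exp v⌋₊, |((ArithmeticFunction.moebius n : ℤ) : ℝ)| ≤ 1 := by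
    intro n _
    have := ArithmeticFunction.abs_moebius_le_one (n := n)
    exact_mod_cast this
  refine (Finset.sum_le_sum h1).trans ?_
  rw [Finset.sum_const, Nat.card_Icc, nsmul_eq_mul, mul_one, Nat.add_sub_cancel]
  exact Nat.floor_le (Real.exp_pos v).le

/-- the formula for `Re z > 1 / 2` -/
lemma Lt_formula {A : ℝ} (h : Gr ff A) {z : ℂ} (hz : 1 / 2 < z.re) :
    (z + 1 / 2) * Lt ff z = 1 / riemannZeta (z + 1 / 2) := by
  have hre : (z + 1 / 2).re = z.re + 1 / 2 := by simp
  have hs : 1 < (z + 1 / 2).re := by rw [hre]; linarith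
  have h1 := As_lim hs
  have h2 : Tendsto (fun v : ℝ => ∫ w in (0:ℝ)..v, ff w * Complex.exp (-(z * w))) atTop
      (𝓝 (Lt ff z)) :=
    intervalIntegral_tendsto_integral_Ioi 0 (int_F h (by linarith)) tendsto_id
  have h3 : Tendsto (fun v : ℝ => (Mf (Real.exp v) : ℂ) * Complex.exp (-((z + 1 / 2) * v))) atTop
      (𝓝 0) := by
    rw [tendsto_zero_iff_norm_tendsto_zero]
    have h4 : Tendsto (fun v : ℝ => Real.exp (-((z.re - 1 / 2) * v))) atTop (𝓝 0) := by
      refine Real.tendsto_exp_neg_atTop_nhds_zero.comp ?_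
      exact tendsto_id.const_mul_atTop (by linarith)
    refine squeeze_zero (fun v => norm_nonneg _) (fun v => ?_) h4
    rw [norm_mul, Complex.norm_real, Complex.norm_exp, Real.norm_eq_abs]
    have e1 : (-((z + 1 / 2) * (v : ℂ))).re = -((z.re + 1 / 2) * v) := by
      simp
    rw [e1]
    calc |Mf (Real.exp v)| * Real.exp (-((z.re + 1 / 2) * v)) ≤
          Real.exp v * Real.exp (-((z.re + 1 / 2) * v)) :=
          mul_le_mul_of_nonneg_right (Mf_abs v) (Real.exp_pos _).le
      _ = Real.exp (-((z.re - 1 / 2) * v)) := by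
        rw [← Real.exp_add]
        congr 1
        ring
  have h5 := h3.add (h2.const_mul (z + 1 / 2))
  rw [zero_add] at h5
  refine tendsto_nhds_unique h5 (h1.congr' ?_)
  filter_upwards [eventually_ge_atTop (0 : ℝ)] with v hv
  rw [Idn.core1 _ hv]
  congr 2
  apply intervalIntegral.integral_congr
  intro w _
  simp only
  unfold ff
  push_cast
  rw [mul_assoc, ← Complex.exp_add]
  congr 2
  ring

end Lap

open Lap

/-- LAP -/
theorem lap : S_LAP := by
  intro A hA z hz
  have hopen : IsOpen {w : ℂ | 0 < w.re} := isOpen_lt continuous_const Complex.continuous_re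
  have hconv : IsPreconnected {w : ℂ | 0 < w.re} := (convex_halfSpace_re_gt 0).isPreconnected
  have hd1 : DifferentiableOn ℂ (fun w : ℂ => (w + 1 / 2) * Zs (w + 1 / 2) * Lt ff w)
      {w : ℂ | 0 < w.re} := by
    intro w hw
    have h1 : DifferentiableAt ℂ (fun w : ℂ => w + 1 / 2) w := differentiableAt_id.add_const _
    have h2 : DifferentiableAt ℂ (fun w : ℂ => Zs (w + 1 / 2)) w :=
      (Zs_diff (w + 1 / 2)).comp w h1
    exact ((h1.mul h2).mul (Lt_diff hA hw)).differentiableWithinAt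
  have hd2 : DifferentiableOn ℂ (fun w : ℂ => w - 1 / 2) {w : ℂ | 0 < w.re} :=
    (differentiable_id.sub_const _).differentiableOn
  have hEq : EqOn (fun w : ℂ => (w + 1 / 2) * Zs (w + 1 / 2) * Lt ff w) (fun w : ℂ => w - 1 / 2)
      {w : ℂ | 0 < w.re} := by
    refine (hd1.analyticOnNhd hopen).eqOn_of_preconnected_of_eventuallyEq (hd2.analyticOnNhd hopen)
      hconv (z₀ := 1) (by simp) ?_
    have h1 : {w : ℂ | 1 / 2 < w.re} ∈ 𝓝 (1 : ℂ) :=
      (isOpen_lt continuous_const Complex.continuous_re).mem_nhds (by simp; norm_num)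
    filter_upwards [h1] with w hw
    have hw' : 1 / 2 < w.re := hw
    have hs : 1 < (w + 1 / 2).re := by
      have : (w + 1 / 2).re = w.re + 1 / 2 := by simp
      rw [this]
      linarith
    have hne : w + 1 / 2 ≠ 1 := by
      intro h
      rw [h] at hs
      simp at hs
    have h2 := Lt_formula hA hw'
    have h3 := riemannZeta_ne_zero_of_one_lt_re hs
    rw [Zs_ne hne]
    have h4 : (w + 1 / 2) * Lt ff w * riemannZeta (w + 1 / 2) = 1 := by
      rw [h2, one_div, inv_mul_cancel₀ h3]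
    linear_combination (w + 1 / 2 - 1) * h4
  have hz1 : (z + 1 / 2) * Zs (z + 1 / 2) * Lt ff z = z - 1 / 2 := hEq hz
  refine ⟨int_F hA hz, ?_, ?_⟩
  · intro h
    have e : z + 1 / 2 = 1 := by
      rw [h]
      norm_num
    rw [e, Zs_one, one_mul, one_mul, h, sub_self] at hz1
    rw [h]
    exact hz1
  · intro h
    have hne : z + 1 / 2 ≠ 1 := by
      intro h2
      apply h
      linear_combination h2
    have hne2 : z - 1 / 2 ≠ 0 := sub_ne_zero.2 h
    rw [Zs_ne hne] at hz1
    have e1 : z + 1 / 2 - 1 = z - 1 / 2 := by ring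
    rw [e1] at hz1
    have h3 : (z + 1 / 2) * riemannZeta (z + 1 / 2) * Lt ff z = 1 := by
      have h4 : (z - 1 / 2) * ((z + 1 / 2) * riemannZeta (z + 1 / 2) * Lt ff z) =
          (z - 1 / 2) * 1 := by
        linear_combination hz1
      exact mul_left_cancel₀ hne2 h4
    have h5 : (z + 1 / 2) * riemannZeta (z + 1 / 2) ≠ 0 := by
      intro h6
      rw [h6, zero_mul] at h3
      exact zero_ne_one h3
    refine ⟨right_ne_zero_of_mul h5, ?_⟩
    rw [eq_div_iff h5, mul_comm]
    exact h3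

end Pool.Agent.P8H24.EP
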